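import Mathlib

namespace Pool.Agent.Results.MP_1cfa3b_gt.TwoPoints

open Set Filter Topology
open scoped NNReal unitInterval

variable {X : Type*} [MetricSpace X]

/-- A geodesic bicombing: jointly continuous, `β x y` is a constant speed geodesic from `x` to `y`. -/
structure IsBicombing (β : X → X → I → X) : Prop where
  cont : Continuous (fun p : X × X × I => β p.1 p.2.1 p.2.2)
  zero : ∀ x y, β x y 0 = x
  one : ∀ x y, β x y 1 = y
  geod : ∀ (x y : X) (s t : I), dist (β x y s) (β x y t) = |(s : ℝ) - t| * dist x y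

/-- Consistency, as equality of images. -/
def Consistent (β : X → X → I → X) : Prop :=
  ∀ (x y : X) (s t : I), s < t → range (β (β x y s) (β x y t)) = β x y '' Icc s t

/-- A `β`-ray: a geodesic ray whose restriction to each `[0,s]` is the reparametrised
`β`-geodesic from `ξ 0` to `ξ s`. -/
def IsRay (β : X → X → I → X) (ξ : ℝ≥0 → X) : Prop :=
  Isometry ξ ∧ ∀ s : ℝ≥0, 0 < s → ∀ u : I, ξ (unitInterval.toNNReal u * s) = β (ξ 0) (ξ s) u

/-- Two `β`-rays are equivalent if they stay at bounded distance. -/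
def asym (β : X → X → I → X) : Setoid {ξ : ℝ≥0 → X // IsRay β ξ} where
  r ξ η := ∃ C : ℝ, ∀ t, dist (ξ.1 t) (η.1 t) ≤ C
  iseqv :=
    { refl := fun _ => ⟨0, fun _ => by simp⟩
      symm := fun ⟨C, h⟩ => ⟨C, fun t => by rw [dist_comm]; exact h t⟩
      trans := fun ⟨C, h⟩ ⟨D, k⟩ =>
        ⟨C + D, fun t => (dist_triangle _ _ _).trans (add_le_add (h t) (k t))⟩ }

/-- The boundary at infinity: equivalence classes of `β`-rays. -/
def Boundary (β : X → X → I → X) : Type _ := Quotient (asym β)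

lemma param {β : X → X → I → X} (hβ : IsBicombing β) (hc : Consistent β) (x y : X) (s u : I)
    (hs : 0 < s) (hd : 0 < dist x y) : β x (β x y s) u = β x y (u * s) := by
  have h := hc x y 0 s hs
  rw [hβ.zero] at h
  have hm : β x (β x y s) u ∈ β x y '' Icc 0 s := h ▸ mem_range_self u
  obtain ⟨v, -, hv⟩ := hm
  have h1 := hβ.geod x y v 0
  have h2 := hβ.geod x (β x y s) u 0
  have h3 := hβ.geod x y s 0
  rw [hβ.zero] at h1 h2 h3
  rw [hv, h2, dist_comm x (β x y s), h3] at h1
  simp only [Set.Icc.coe_zero, sub_zero] at h1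
  rw [abs_of_nonneg u.2.1, abs_of_nonneg s.2.1, abs_of_nonneg v.2.1, ← mul_assoc] at h1
  have h4 : (u : ℝ) * s = v := mul_right_cancel₀ hd.ne' h1
  rw [← hv]
  congr 1
  exact Subtype.ext h4.symm

/-- point at distance `t` from `o` on the geodesic towards `a`. -/
noncomputable def P (β : X → X → I → X) (o a : X) (t : ℝ≥0) : X :=
  β o a (projIcc 0 1 zero_le_one (t / dist o a))

lemma coe_proj {o a : X} {t : ℝ≥0} (h0 : 0 < dist o a) (h : (t : ℝ) ≤ dist o a) :
    ((projIcc (0 : ℝ) 1 zero_le_one (t / dist o a) : I) : ℝ) = t / dist o a := by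
  rw [projIcc_of_mem]
  exact ⟨div_nonneg t.2 h0.le, (div_le_one h0).2 h⟩

lemma P_dist {β : X → X → I → X} (hβ : IsBicombing β) {o a : X} {s t : ℝ≥0} (h0 : 0 < dist o a)
    (hs : (s : ℝ) ≤ dist o a) (ht : (t : ℝ) ≤ dist o a) :
    dist (P β o a s) (P β o a t) = |(s : ℝ) - t| := by
  unfold P
  rw [hβ.geod, coe_proj h0 hs, coe_proj h0 ht, ← sub_div, abs_div, abs_of_pos h0,
    div_mul_cancel₀ _ h0.ne']

lemma P_zero {β : X → X → I → X} (hβ : IsBicombing β) (o a : X) : P β o a 0 = o := by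
  unfold P
  have : projIcc (0 : ℝ) 1 zero_le_one (((0 : ℝ≥0) : ℝ) / dist o a) = 0 := by
    simp only [NNReal.coe_zero, zero_div]
    exact projIcc_left _
  rw [this, hβ.zero]

lemma P_end {β : X → X → I → X} (hβ : IsBicombing β) {o a : X} {t : ℝ≥0} (h0 : 0 < dist o a)
    (ht : (t : ℝ) ≤ dist o a) : dist (P β o a t) a = dist o a - t := by
  have h := hβ.geod o a (projIcc 0 1 zero_le_one (t / dist o a)) 1
  rw [hβ.one, coe_proj h0 ht] at h
  unfold P
  rw [h, Set.Icc.coe_one, abs_of_nonpos (by rw [sub_nonpos]; exact (div_le_one h0).2 ht)]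
  field_simp
  ring

lemma P_cons {β : X → X → I → X} (hβ : IsBicombing β) (hc : Consistent β) {o a : X} {s : ℝ≥0}
    (h0 : 0 < dist o a) (hs0 : 0 < s) (hs : (s : ℝ) ≤ dist o a) (u : I) :
    P β o a (unitInterval.toNNReal u * s) = β o (P β o a s) u := by
  have hus : ((unitInterval.toNNReal u * s : ℝ≥0) : ℝ) = u * s := rfl
  have hle : ((unitInterval.toNNReal u * s : ℝ≥0) : ℝ) ≤ dist o a := by
    rw [hus]
    exact (mul_le_of_le_one_left s.2 u.2.2).trans hs
  unfold P
  rw [param hβ hc o a _ u _ h0]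
  · congr 1
    apply Subtype.ext
    rw [Set.Icc.coe_mul, coe_proj h0 hle, coe_proj h0 hs, hus, mul_div_assoc]
  · rw [← Subtype.coe_lt_coe, coe_proj h0 hs]
    exact div_pos (by exact_mod_cast hs0) h0

lemma exists_ray [ProperSpace X] {β : X → X → I → X} (hβ : IsBicombing β) (hc : Consistent β)
    (o : X) (a : ℕ → X) (ha : Tendsto (fun n => dist o (a n)) atTop atTop) :
    ∃ ζ : ℝ≥0 → X, IsRay β ζ ∧
      ∀ t, Tendsto (fun n => P β o (a n) t) (hyperfilter ℕ : Filter ℕ) (𝓝 (ζ t)) := by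
  have hU : (hyperfilter ℕ : Filter ℕ) ≤ atTop := Nat.hyperfilter_le_atTop
  have ev : ∀ t : ℝ, ∀ᶠ n in (hyperfilter ℕ : Filter ℕ), 0 < dist o (a n) ∧ t ≤ dist o (a n) :=
    fun t => hU ((ha.eventually_gt_atTop 0).and (ha.eventually_ge_atTop t))
  have hex : ∀ t : ℝ≥0, ∃ z, Tendsto (fun n => P β o (a n) t) (hyperfilter ℕ : Filter ℕ) (𝓝 z) := by
    intro t
    have hK : IsCompact (Metric.closedBall o t) := isCompact_closedBall o t
    have hm : (↑((hyperfilter ℕ).map (fun n => P β o (a n) t)) : Filter X)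
        ≤ 𝓟 (Metric.closedBall o t) := by
      rw [Ultrafilter.coe_map, le_principal_iff, mem_map]
      filter_upwards [ev t] with n hn
      have := P_dist hβ (s := t) (t := 0) hn.1 hn.2 (by simp)
      rw [P_zero hβ] at this
      simp only [mem_preimage, Metric.mem_closedBall, this]
      simp
    obtain ⟨z, -, hz⟩ := hK.ultrafilter_le_nhds _ hm
    exact ⟨z, hz⟩
  choose ζ hζ using hex
  have h0 : ζ 0 = o := by
    have := hζ 0
    simp only [P_zero hβ] at this
    exact (tendsto_nhds_unique tendsto_const_nhds this).symm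
  refine ⟨ζ, ⟨?_, ?_⟩, hζ⟩
  · refine Isometry.of_dist_eq fun s t => ?_
    have h1 := (hζ s).dist (hζ t)
    have h2 : Tendsto (fun n => dist (P β o (a n) s) (P β o (a n) t)) (hyperfilter ℕ : Filter ℕ)
        (𝓝 |(s : ℝ) - t|) := by
      refine tendsto_const_nhds.congr' ?_
      filter_upwards [ev s, ev t] with n hs ht
      exact (P_dist hβ hs.1 hs.2 ht.2).symm
    rw [tendsto_nhds_unique h1 h2]
    rfl
  · intro s hs u
    have h1 := hζ (unitInterval.toNNReal u * s)
    have hcont : Continuous (fun z => β o z u) :=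
      hβ.cont.comp (continuous_const.prodMk (continuous_id.prodMk continuous_const))
    have h2 := (hcont.tendsto _).comp (hζ s)
    have h3 : Tendsto (fun n => P β o (a n) (unitInterval.toNNReal u * s))
        (hyperfilter ℕ : Filter ℕ) (𝓝 (β o (ζ s) u)) := by
      refine h2.congr' ?_
      filter_upwards [ev s] with n hn
      exact (P_cons hβ hc hn.1 hs hn.2 u).symm
    rw [h0]
    exact tendsto_nhds_unique h1 h3

lemma cocomp {G : Type*} [Group G] [MulAction G X] (hiso : ∀ g : G, Isometry (fun x : X => g • x))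
    (hc : CompactSpace (Quotient (MulAction.orbitRel G X))) (o : X) :
    ∃ R : ℝ, ∀ x : X, ∃ g : G, dist (g • x) o ≤ R := by
  have : ContinuousConstSMul G X := ⟨fun g => (hiso g).continuous⟩
  have hop : IsOpenMap (Quotient.mk (MulAction.orbitRel G X)) := isOpenMap_quotient_mk'_mul
  obtain ⟨t, ht⟩ := isCompact_univ.elim_finite_subcover
    (fun n : ℕ => Quotient.mk (MulAction.orbitRel G X) '' Metric.ball o n)
    (fun n => hop _ Metric.isOpen_ball) (by
      intro q _
      obtain ⟨x, rfl⟩ := Quotient.exists_rep q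
      obtain ⟨n, hn⟩ := exists_nat_gt (dist x o)
      exact mem_iUnion.2 ⟨n, x, hn, rfl⟩)
  refine ⟨((t.sup id : ℕ) : ℝ), fun x => ?_⟩
  have hx := ht (mem_univ (Quotient.mk (MulAction.orbitRel G X) x))
  simp only [mem_iUnion] at hx
  obtain ⟨n, hn, y, hy, hyx⟩ := hx
  obtain ⟨g, hg⟩ : y ∈ MulAction.orbit G x := Quotient.exact hyx
  refine ⟨g, ?_⟩
  have hg' : g • x = y := hg
  rw [hg']
  have : n ≤ t.sup id := Finset.le_sup (f := id) hn
  exact (le_of_lt hy).trans (by exact_mod_cast this)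

theorem result {X : Type*} [MetricSpace X] [ProperSpace X] (β : X → X → I → X)
    (hβ : IsBicombing β) (hcons : Consistent β) {G : Type*} [Group G] [MulAction G X]
    (hiso : ∀ g : G, Isometry (fun x : X => g • x))
    (hcc : CompactSpace (Quotient (MulAction.orbitRel G X))) :
    IsEmpty (Boundary β) ∨ Nontrivial (Boundary β) := by
  by_cases hE : IsEmpty (Boundary β)
  · exact Or.inl hE
  right
  obtain ⟨q⟩ := not_isEmpty_iff.1 hE
  obtain ⟨⟨ξ, hξ, -⟩, -⟩ := Quotient.exists_rep q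
  set o := ξ 0
  obtain ⟨R, hR⟩ := cocomp hiso hcc o
  choose g hg using fun n : ℕ => hR (ξ n)
  set a : ℕ → X := fun n => g n • ξ 0
  set b : ℕ → X := fun n => g n • ξ (2 * n)
  have hab : ∀ n : ℕ, dist (a n) (b n) = 2 * n := by
    intro n
    simp only [a, b]
    rw [(hiso (g n)).dist_eq, hξ.dist_eq, NNReal.dist_eq]
    simp
  have ham : ∀ n : ℕ, dist (a n) (g n • ξ n) = n := by
    intro n
    simp only [a]
    rw [(hiso (g n)).dist_eq, hξ.dist_eq, NNReal.dist_eq]
    simp
  have hbm : ∀ n : ℕ, dist (b n) (g n • ξ n) = n := by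
    intro n
    simp only [b]
    rw [(hiso (g n)).dist_eq, hξ.dist_eq, NNReal.dist_eq]
    push_cast
    rw [show (2 : ℝ) * n - n = n by ring]
    simp
  have key : ∀ c : ℕ → X, (∀ n : ℕ, dist (c n) (g n • ξ n) = n) →
      (∀ n : ℕ, dist o (c n) ≤ n + R) ∧ Tendsto (fun n => dist o (c n)) atTop atTop := by
    intro c hc
    constructor
    · intro n
      have := dist_triangle_right o (c n) (g n • ξ n)
      rw [hc, dist_comm o (g n • ξ n)] at this
      linarith [hg n]
    · refine tendsto_atTop_mono (f := fun n : ℕ => (n : ℝ) + -R) (fun n => ?_)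
        (tendsto_atTop_add_const_right _ _ tendsto_natCast_atTop_atTop)
      have := dist_triangle_left (c n) (g n • ξ n) o
      rw [hc, dist_comm o (g n • ξ n)] at this
      linarith [hg n]
  obtain ⟨ha1, ha2⟩ := key a ham
  obtain ⟨hb1, hb2⟩ := key b hbm
  obtain ⟨ζ, hζ, hζt⟩ := exists_ray hβ hcons o a ha2
  obtain ⟨η, hη, hηt⟩ := exists_ray hβ hcons o b hb2
  have hU : (hyperfilter ℕ : Filter ℕ) ≤ atTop := Nat.hyperfilter_le_atTop
  have far : ∀ t : ℝ≥0, 2 * (t : ℝ) - 2 * R ≤ dist (ζ t) (η t) := by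
    intro t
    refine ge_of_tendsto ((hζt t).dist (hηt t)) ?_
    filter_upwards [hU (ha2.eventually_gt_atTop 0), hU (ha2.eventually_ge_atTop t),
      hU (hb2.eventually_gt_atTop 0), hU (hb2.eventually_ge_atTop t)] with n h1 h2 h3 h4
    have e1 := P_end hβ h1 h2
    have e2 := P_end hβ h3 h4
    have e3 := dist_triangle4 (a n) (P β o (a n) t) (P β o (b n) t) (b n)
    rw [hab, dist_comm (a n), e1, e2] at e3
    linarith [ha1 n, hb1 n]
  refine ⟨⟨Quotient.mk (asym β) ⟨ζ, hζ⟩, Quotient.mk (asym β) ⟨η, hη⟩, fun h => ?_⟩⟩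
  obtain ⟨C, hC⟩ := Quotient.exact h
  have h1 := far ⟨|C| + |R| + 1, by positivity⟩
  have h2 := hC ⟨|C| + |R| + 1, by positivity⟩
  have h3 : 2 * (|C| + |R| + 1) - 2 * R ≤ C := h1.trans h2
  linarith [le_abs_self C, le_abs_self R, abs_nonneg C]

end Pool.Agent.Results.MP_1cfa3b_gt.TwoPoints
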